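import Mathlib
import Pool.Agent.N604.MW.KMeas

/-!
# Project KV, part L1R: the mean of the product over the lower arcs (helper277)
-/

set_option autoImplicit false

namespace Pool.Agent.N277.KV

open Finset MeasureTheory Pool.Agent.N604.MW
open scoped ENNReal

/-- Tonelli for products. -/
theorem lintegral_pi_prod {ι : Type*} [Fintype ι] {E : ι → Type*} [∀ i, MeasurableSpace (E i)]
    (μ : ∀ i, Measure (E i)) [∀ i, IsProbabilityMeasure (μ i)] (f : ∀ i, E i → ℝ≥0∞)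
    (hf : ∀ i, Measurable (f i)) :
    ∫⁻ x, ∏ i, f i (x i) ∂(Measure.pi μ) = ∏ i, ∫⁻ y, f i y ∂(μ i) := by
  have h := ProbabilityTheory.lintegral_prod_eq_prod_lintegral_of_indepFun Finset.univ
    (fun i (x : ∀ i, E i) => f i (x i))
    (ProbabilityTheory.iIndepFun_pi (μ := μ) (X := f) fun i => (hf i).aemeasurable)
    (fun i => (hf i).comp (measurable_pi_apply i))
  rw [h]
  refine Finset.prod_congr rfl fun i _ => ?_
  exact (measurePreserving_eval μ i).lintegral_comp (hf i)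

/-- Cauchy–Schwarz for a probability measure. -/
theorem jensen_sq {Ω : Type*} [MeasurableSpace Ω] (μ : Measure Ω) [IsProbabilityMeasure μ]
    (f : Ω → ℝ≥0∞) (hf : Measurable f) : (∫⁻ x, f x ∂μ) ^ 2 ≤ ∫⁻ x, f x ^ 2 ∂μ := by
  have h := ENNReal.lintegral_mul_le_Lp_mul_Lq μ Real.HolderConjugate.two_two hf.aemeasurable
    (measurable_const (a := (1 : ℝ≥0∞))).aemeasurable
  simp only [Pi.mul_apply, mul_one, ENNReal.one_rpow, lintegral_const, measure_univ] at h
  have h2 := pow_le_pow_left' h 2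
  refine h2.trans (le_of_eq ?_)
  rw [← ENNReal.rpow_natCast, ← ENNReal.rpow_mul]
  norm_num

/-- the truncation -/
def A1 (d X : ℕ) : Set (Fin d → ℝ) := {θ | ∀ l, |θ l| ≤ Real.sqrt X}

lemma A1_meas (d X : ℕ) : MeasurableSet (A1 d X) := by
  have : A1 d X = ⋂ l, {θ : Fin d → ℝ | |θ l| ≤ Real.sqrt X} := by ext θ; simp [A1]
  rw [this]
  exact MeasurableSet.iInter fun l => measurableSet_le (by fun_prop) measurable_const

lemma AA_meas (s d X : ℕ) :
    MeasurableSet {θ : Fin s → Fin d → ℝ | ∀ i l, |θ i l| ≤ Real.sqrt X} := by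
  have : {θ : Fin s → Fin d → ℝ | ∀ i l, |θ i l| ≤ Real.sqrt X} =
      ⋂ i, ⋂ l, {θ : Fin s → Fin d → ℝ | |θ i l| ≤ Real.sqrt X} := by ext θ; simp
  rw [this]
  exact MeasurableSet.iInter fun i => MeasurableSet.iInter fun l =>
    measurableSet_le (by fun_prop) measurable_const

/-- the truncated absolute value -/
noncomputable def fh (d X : ℕ) (F : ℕ → ℝ) (β : ℝ) (θ : Fin d → ℝ) : ℝ≥0∞ :=
  (A1 d X).indicator (fun θ => ENNReal.ofReal ‖TQ d F X θ β‖) θ

lemma fh_meas2 (d X : ℕ) (F : ℕ → ℝ) : Measurable fun p : (Fin d → ℝ) × ℝ => fh d X F p.2 p.1 := by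
  have h1 : (fun p : (Fin d → ℝ) × ℝ => fh d X F p.2 p.1) =
      (Prod.fst ⁻¹' A1 d X).indicator (fun p => ENNReal.ofReal ‖TQ d F X p.1 p.2‖) := by
    funext p
    unfold fh
    by_cases hp : p.1 ∈ A1 d X
    · rw [Set.indicator_of_mem hp, Set.indicator_of_mem (by exact hp)]
    · rw [Set.indicator_of_notMem hp, Set.indicator_of_notMem (by exact hp)]
  rw [h1]
  refine Measurable.indicator ?_ (measurable_fst (A1_meas d X))
  exact (TQ_measurable d F X).norm.ennreal_ofReal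

lemma fh_meas (d X : ℕ) (F : ℕ → ℝ) (β : ℝ) : Measurable (fh d X F β) :=
  Measurable.comp (g := fun p : (Fin d → ℝ) × ℝ => fh d X F p.2 p.1) (f := fun θ => (θ, β))
    (fh_meas2 d X F) (by fun_prop)

lemma fh_le (d X : ℕ) (F : ℕ → ℝ) (β : ℝ) (θ : Fin d → ℝ) :
    fh d X F β θ ≤ ENNReal.ofReal ‖TQ d F X θ β‖ := by
  unfold fh
  exact Set.indicator_le_self _ _ θ

/-- the mean of the truncated absolute value -/
noncomputable def hh (d X : ℕ) (F : ℕ → ℝ) (β : ℝ) : ℝ≥0∞ := ∫⁻ θ, fh d X F β θ ∂(GM d)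

/-- the mean square of the truncated absolute value -/
noncomputable def gg (d X : ℕ) (F : ℕ → ℝ) (β : ℝ) : ℝ≥0∞ := ∫⁻ θ, fh d X F β θ ^ 2 ∂(GM d)

lemma hh_sq_le (d X : ℕ) (F : ℕ → ℝ) (β : ℝ) : hh d X F β ^ 2 ≤ gg d X F β :=
  jensen_sq _ _ (fh_meas d X F β)

lemma hh_meas (d X : ℕ) (F : ℕ → ℝ) : Measurable (hh d X F) := by
  unfold hh
  exact Measurable.lintegral_prod_left' (fh_meas2 d X F)

lemma gg_meas (d X : ℕ) (F : ℕ → ℝ) : Measurable (gg d X F) := by
  unfold gg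
  exact Measurable.lintegral_prod_left' ((fh_meas2 d X F).pow_const 2)

theorem swap_eq (s d X : ℕ) (F : Fin s → ℕ → ℝ) (I : Set ℝ) :
    ∫⁻ θ in {θ : Fin s → Fin d → ℝ | ∀ i l, |θ i l| ≤ Real.sqrt X},
      (∫⁻ β in I, ENNReal.ofReal (∏ i, ‖TQ d (F i) X (θ i) β‖)) ∂(GMs s d) =
    ∫⁻ β in I, ∏ i, hh d X (F i) β := by
  have h1 : ∀ (θ : Fin s → Fin d → ℝ) (β : ℝ),
      {θ : Fin s → Fin d → ℝ | ∀ i l, |θ i l| ≤ Real.sqrt X}.indicator
        (fun θ => ENNReal.ofReal (∏ i, ‖TQ d (F i) X (θ i) β‖)) θ =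
      ∏ i, fh d X (F i) β (θ i) := by
    intro θ β
    by_cases hθ : θ ∈ {θ : Fin s → Fin d → ℝ | ∀ i l, |θ i l| ≤ Real.sqrt X}
    · rw [Set.indicator_of_mem hθ, ENNReal.ofReal_prod_of_nonneg fun i _ => norm_nonneg _]
      refine Finset.prod_congr rfl fun i _ => ?_
      unfold fh
      rw [Set.indicator_of_mem]
      exact hθ i
    · rw [Set.indicator_of_notMem hθ]
      symm
      have h2 : ¬ ∀ i l, |θ i l| ≤ Real.sqrt X := hθ
      push Not at h2
      obtain ⟨i, l, hil⟩ := h2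
      refine Finset.prod_eq_zero (Finset.mem_univ i) ?_
      unfold fh
      rw [Set.indicator_of_notMem]
      intro h3
      exact absurd (h3 l) (not_le.2 hil)
  rw [← lintegral_indicator (AA_meas s d X)]
  have h2 : ∀ θ : Fin s → Fin d → ℝ,
      {θ : Fin s → Fin d → ℝ | ∀ i l, |θ i l| ≤ Real.sqrt X}.indicator
        (fun θ => ∫⁻ β in I, ENNReal.ofReal (∏ i, ‖TQ d (F i) X (θ i) β‖)) θ =
      ∫⁻ β in I, ∏ i, fh d X (F i) β (θ i) := by
    intro θ
    by_cases hθ : θ ∈ {θ : Fin s → Fin d → ℝ | ∀ i l, |θ i l| ≤ Real.sqrt X}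
    · rw [Set.indicator_of_mem hθ]
      refine lintegral_congr fun β => ?_
      rw [← h1, Set.indicator_of_mem hθ]
    · rw [Set.indicator_of_notMem hθ]
      symm
      have h3 : ∀ β, ∏ i, fh d X (F i) β (θ i) = 0 := by
        intro β
        rw [← h1, Set.indicator_of_notMem hθ]
      simp_rw [h3]
      exact lintegral_zero
  rw [lintegral_congr h2, lintegral_lintegral_swap]
  · refine lintegral_congr fun β => ?_
    unfold GMs hh
    exact lintegral_pi_prod (fun _ => GM d) (fun i => fh d X (F i) β) fun i => fh_meas d X (F i) β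
  · refine Measurable.aemeasurable ?_
    refine Finset.measurable_prod _ fun i _ => ?_
    exact Measurable.comp (g := fun p : (Fin d → ℝ) × ℝ => fh d X (F i) p.2 p.1)
      (f := fun p : (Fin s → Fin d → ℝ) × ℝ => (p.1 i, p.2)) (fh_meas2 d X (F i)) (by fun_prop)

lemma hh_le_real (d X : ℕ) (F : ℕ → ℝ) (β : ℝ) (M : ℝ) (hM : ∀ θ, ‖TQ d F X θ β‖ ≤ M) :
    hh d X F β ≤ ENNReal.ofReal M := by
  unfold hh
  calc ∫⁻ θ, fh d X F β θ ∂(GM d) ≤ ∫⁻ _θ, ENNReal.ofReal M ∂(GM d) :=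
        lintegral_mono fun θ => (fh_le d X F β θ).trans (ENNReal.ofReal_le_ofReal (hM θ))
    _ = ENNReal.ofReal M := by rw [lintegral_const, measure_univ, mul_one]

lemma hh_le_sqrt (d X : ℕ) (F : ℕ → ℝ) (β : ℝ) (M : ℝ) (hM0 : 0 ≤ M)
    (hM : ∫⁻ θ, ENNReal.ofReal (‖TQ d F X θ β‖ ^ 2) ∂(GM d) ≤ ENNReal.ofReal (M ^ 2)) :
    hh d X F β ≤ ENNReal.ofReal M := by
  have h1 : hh d X F β ^ 2 ≤ ENNReal.ofReal M ^ 2 := by
    refine (hh_sq_le d X F β).trans ?_
    rw [← ENNReal.ofReal_pow hM0]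
    refine le_trans (lintegral_mono fun θ => ?_) hM
    rw [ENNReal.ofReal_pow (norm_nonneg _)]
    exact pow_le_pow_left' (fh_le d X F β θ) 2
  exact (ENNReal.pow_le_pow_left_iff two_ne_zero).1 h1

lemma gg_int (d X : ℕ) (F : ℕ → ℝ) (η K : ℝ)
    (hK : ∀ θ : Fin d → ℝ, (∀ l, |θ l| ≤ Real.sqrt X) → ∫ β in Arc 0 η, ‖TQ d F X θ β‖ ^ 2 ≤ K) :
    ∫⁻ β in Arc 0 η, gg d X F β ≤ ENNReal.ofReal K := by
  unfold gg
  have hsw := lintegral_lintegral_swap (μ := GM d) (ν := volume.restrict (Arc 0 η))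
    (f := fun θ β => fh d X F β θ ^ 2) ((fh_meas2 d X F).pow_const 2).aemeasurable
  rw [← hsw]
  calc ∫⁻ θ, (∫⁻ β in Arc 0 η, fh d X F β θ ^ 2) ∂(GM d) ≤ ∫⁻ _θ, ENNReal.ofReal K ∂(GM d) := by
          refine lintegral_mono fun θ => ?_
          by_cases hθ : θ ∈ A1 d X
          · have h1 : ∀ β, fh d X F β θ ^ 2 = ENNReal.ofReal (‖TQ d F X θ β‖ ^ 2) := by
              intro β
              unfold fh
              rw [Set.indicator_of_mem hθ, ENNReal.ofReal_pow (norm_nonneg _)]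
            simp_rw [h1]
            rw [← ofReal_integral_eq_lintegral_ofReal]
            · exact ENNReal.ofReal_le_ofReal (hK θ hθ)
            · exact ((TQ_continuous d F X θ).norm.pow 2).continuousOn.integrableOn_compact
                (isCompact_Arc 0 η)
            · exact Filter.Eventually.of_forall fun β => sq_nonneg _
          · have h1 : ∀ β, fh d X F β θ ^ 2 = 0 := by
              intro β
              unfold fh
              rw [Set.indicator_of_notMem hθ, zero_pow two_ne_zero]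
            simp_rw [h1]
            rw [lintegral_zero]
            exact zero_le
    _ = ENNReal.ofReal K := by rw [lintegral_const, measure_univ, mul_one]

/-- one piece of the arcs -/
lemma piece (s d X : ℕ) (F : Fin (s + 2) → ℕ → ℝ) (I : Set ℝ) (η M K0 K1 : ℝ) (hM0 : 0 ≤ M)
    (hIm : MeasurableSet I) (hI : I ⊆ Arc 0 η) (hM : ∀ β ∈ I, ∀ i, hh d X (F i) β ≤ ENNReal.ofReal M)
    (h0 : ∫⁻ β in Arc 0 η, gg d X (F 0) β ≤ ENNReal.ofReal K0) (hK0 : 0 ≤ K0)
    (h1 : ∫⁻ β in Arc 0 η, gg d X (F 1) β ≤ ENNReal.ofReal K1) (hK1 : 0 ≤ K1) :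
    ∫⁻ β in I, ∏ i, hh d X (F i) β ≤ ENNReal.ofReal (M ^ s * (K0 + K1)) := by
  have e1 : ∀ β ∈ I, ∏ i, hh d X (F i) β ≤
      ENNReal.ofReal (M ^ s) * (gg d X (F 0) β + gg d X (F 1) β) := by
    intro β hβ
    rw [Fin.prod_univ_succ, Fin.prod_univ_succ, ← mul_assoc, mul_comm]
    refine mul_le_mul' ?_ ?_
    · calc ∏ i : Fin s, hh d X (F i.succ.succ) β ≤ ∏ _i : Fin s, ENNReal.ofReal M :=
            Finset.prod_le_prod' fun i _ => hM β hβ _
        _ = ENNReal.ofReal (M ^ s) := by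
            rw [Finset.prod_const, Finset.card_univ, Fintype.card_fin, ENNReal.ofReal_pow hM0]
    · have e2 : ∀ x y : ℝ≥0∞, x * y ≤ x ^ 2 + y ^ 2 := by
        intro x y
        rcases le_total x y with h | h
        · calc x * y ≤ y * y := mul_le_mul' h le_rfl
            _ = y ^ 2 := (sq y).symm
            _ ≤ x ^ 2 + y ^ 2 := le_add_self
        · calc x * y ≤ x * x := mul_le_mul' le_rfl h
            _ = x ^ 2 := (sq x).symm
            _ ≤ x ^ 2 + y ^ 2 := le_self_add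
      refine (e2 _ _).trans ?_
      exact add_le_add (hh_sq_le d X (F 0) β) (hh_sq_le d X (F 1) β)
  calc ∫⁻ β in I, ∏ i, hh d X (F i) β
      ≤ ∫⁻ β in I, ENNReal.ofReal (M ^ s) * (gg d X (F 0) β + gg d X (F 1) β) :=
        setLIntegral_mono' hIm e1
    _ ≤ ∫⁻ β in Arc 0 η, ENNReal.ofReal (M ^ s) * (gg d X (F 0) β + gg d X (F 1) β) :=
        lintegral_mono_set hI
    _ = ENNReal.ofReal (M ^ s) * (∫⁻ β in Arc 0 η, gg d X (F 0) β + gg d X (F 1) β) :=
        lintegral_const_mul _ ((gg_meas d X (F 0)).add (gg_meas d X (F 1)))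
    _ = ENNReal.ofReal (M ^ s) * ((∫⁻ β in Arc 0 η, gg d X (F 0) β) +
          ∫⁻ β in Arc 0 η, gg d X (F 1) β) := by
        rw [lintegral_add_left (gg_meas d X (F 0))]
    _ ≤ ENNReal.ofReal (M ^ s) * (ENNReal.ofReal K0 + ENNReal.ofReal K1) := by gcongr
    _ = ENNReal.ofReal (M ^ s * (K0 + K1)) := by
        rw [← ENNReal.ofReal_add hK0 hK1, ENNReal.ofReal_mul (pow_nonneg hM0 s)]

/-- the real inequality for a dyadic piece -/
lemma dyad (s d : ℕ) (X U hs : ℝ) (hs2 : 2 ≤ s) (hX : 1 ≤ X) (hU : 1 ≤ U) (hU2 : U ≤ X ^ hs) :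
    Real.sqrt (X * (1 + X / U)) ^ s * (U * X ^ (1 - (d : ℝ))) ≤
      Real.sqrt 2 ^ s * (X ^ ((s : ℝ) + 2 - d - 1) + X ^ (((s : ℝ) + 2) / 2 - d + hs)) := by
  have hX0 : 0 < X := by linarith
  have hU0 : 0 < U := by linarith
  have hp1 : 0 < X ^ ((s : ℝ) + 2 - d - 1) := Real.rpow_pos_of_pos hX0 _
  have hp2 : 0 < X ^ (((s : ℝ) + 2) / 2 - d + hs) := Real.rpow_pos_of_pos hX0 _
  have hp3 : 0 < X ^ (1 - (d : ℝ)) := Real.rpow_pos_of_pos hX0 _
  have h2s : 0 < Real.sqrt 2 ^ s := by positivity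
  rcases le_total U X with h | h
  · have h1 : Real.sqrt (X * (1 + X / U)) ≤ Real.sqrt 2 * (X / Real.sqrt U) := by
      rw [← Real.sqrt_sq hX0.le, ← Real.sqrt_div (sq_nonneg X), ← Real.sqrt_mul zero_le_two,
        Real.sqrt_sq hX0.le]
      refine Real.sqrt_le_sqrt ?_
      have h3 : 1 ≤ X / U := (one_le_div hU0).2 h
      have h4 : X ^ 2 / U = X * (X / U) := by ring
      rw [h4]
      nlinarith
    have h2 : Real.sqrt (X * (1 + X / U)) ^ s ≤ Real.sqrt 2 ^ s * (X ^ s / U) := by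
      refine (pow_le_pow_left₀ (Real.sqrt_nonneg _) h1 s).trans ?_
      rw [mul_pow, div_pow]
      refine mul_le_mul_of_nonneg_left ?_ h2s.le
      refine div_le_div_of_nonneg_left (by positivity) hU0 ?_
      calc U = Real.sqrt U ^ 2 := (Real.sq_sqrt hU0.le).symm
        _ ≤ Real.sqrt U ^ s := pow_le_pow_right₀ (Real.one_le_sqrt.2 hU) hs2
    have h3 : X ^ s * X ^ (1 - (d : ℝ)) = X ^ ((s : ℝ) + 2 - d - 1) := by
      rw [← Real.rpow_natCast, ← Real.rpow_add hX0]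
      congr 1
      ring
    calc Real.sqrt (X * (1 + X / U)) ^ s * (U * X ^ (1 - (d : ℝ)))
        ≤ (Real.sqrt 2 ^ s * (X ^ s / U)) * (U * X ^ (1 - (d : ℝ))) :=
          mul_le_mul_of_nonneg_right h2 (by positivity)
      _ = Real.sqrt 2 ^ s * (X ^ s * X ^ (1 - (d : ℝ))) := by field_simp
      _ ≤ _ := by
          rw [h3]
          exact mul_le_mul_of_nonneg_left (by linarith) h2s.le
  · have h1 : Real.sqrt (X * (1 + X / U)) ≤ Real.sqrt 2 * Real.sqrt X := by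
      rw [← Real.sqrt_mul zero_le_two]
      refine Real.sqrt_le_sqrt ?_
      have h3 : X / U ≤ 1 := (div_le_one hU0).2 h
      nlinarith
    have h2 : Real.sqrt (X * (1 + X / U)) ^ s ≤ Real.sqrt 2 ^ s * X ^ ((s : ℝ) / 2) := by
      refine (pow_le_pow_left₀ (Real.sqrt_nonneg _) h1 s).trans (le_of_eq ?_)
      rw [mul_pow]
      congr 1
      rw [Real.sqrt_eq_rpow, ← Real.rpow_natCast, ← Real.rpow_mul hX0.le]
      congr 1
      ring
    have h3 : X ^ ((s : ℝ) / 2) * (X ^ hs * X ^ (1 - (d : ℝ))) =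
        X ^ (((s : ℝ) + 2) / 2 - d + hs) := by
      rw [← Real.rpow_add hX0, ← Real.rpow_add hX0]
      congr 1
      ring
    calc Real.sqrt (X * (1 + X / U)) ^ s * (U * X ^ (1 - (d : ℝ)))
        ≤ (Real.sqrt 2 ^ s * X ^ ((s : ℝ) / 2)) * (X ^ hs * X ^ (1 - (d : ℝ))) := by
          refine mul_le_mul h2 ?_ (by positivity) (by positivity)
          exact mul_le_mul_of_nonneg_right hU2 hp3.le
      _ = Real.sqrt 2 ^ s * X ^ (((s : ℝ) + 2) / 2 - d + hs) := by rw [mul_assoc, h3]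
      _ ≤ _ := mul_le_mul_of_nonneg_left (by linarith) h2s.le

theorem l1r (h1 : S_L2) (h2 : S_MSQ) : S_L1R := by
  intro d s0 c b hs hd hs4 hc hhs1 hhsd
  obtain ⟨s, rfl⟩ : ∃ s : ℕ, s0 = s + 2 := ⟨s0 - 2, by omega⟩
  have hs2 : 2 ≤ s := by omega
  obtain ⟨C2, hC2, H2⟩ := h1 d hd
  choose C3 hC3 X3 H3 using fun i => h2 d (c i) (b i) hd (hc i)
  have hdr : (1 : ℝ) ≤ d := by exact_mod_cast hd
  -- the exponent is negative
  obtain ⟨X4, hX4⟩ : ∃ X4 : ℕ, ∀ X : ℕ, X4 ≤ X → (X : ℝ) ^ (-(d : ℝ) + hs) ≤ 1 / 2 := by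
    have h3 : Filter.Tendsto (fun X : ℕ => (X : ℝ) ^ (-((d : ℝ) - hs))) Filter.atTop (nhds 0) :=
      (tendsto_rpow_neg_atTop (by linarith)).comp tendsto_natCast_atTop_atTop
    have h4 := h3.eventually (ge_mem_nhds (by norm_num : (0 : ℝ) < 1 / 2))
    obtain ⟨X4, h5⟩ := Filter.eventually_atTop.1 h4
    refine ⟨X4, fun X hX => ?_⟩
    have h6 := h5 X hX
    have h7 : -((d : ℝ) - hs) = -(d : ℝ) + hs := by ring
    rwa [h7] at h6
  set C0 : ℝ := C3 0 + C3 1 with hC0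
  have hC0p : 0 < C0 := add_pos (hC3 0) (hC3 1)
  set J0 : ℕ := ⌈hs⌉₊ with hJ0
  refine ⟨2 ^ (s + 1) * C0 + 6 * J0 * (C0 * (Real.sqrt C2 ^ s * Real.sqrt 2 ^ s)), by positivity,
    max (max (X3 0) (X3 1)) (max X4 2), ?_⟩
  intro X hX
  have hXa : X3 0 ≤ X := (le_max_left _ _).trans ((le_max_left _ _).trans hX)
  have hXb : X3 1 ≤ X := (le_max_right _ _).trans ((le_max_left _ _).trans hX)
  have hXc : X4 ≤ X := (le_max_left _ _).trans ((le_max_right _ _).trans hX)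
  have hXd : 2 ≤ X := (le_max_right _ _).trans ((le_max_right _ _).trans hX)
  have hX2 : (2 : ℝ) ≤ X := by exact_mod_cast hXd
  have hX1 : (1 : ℝ) ≤ X := by linarith
  have hX0 : (0 : ℝ) < X := by linarith
  rw [swap_eq (s + 2) d X (fun i => FF d (c i) (b i))]
  set L : ℝ := Real.log (2 * X) with hL
  have hL1 : 1 ≤ L := by
    rw [hL, Real.le_log_iff_exp_le (by linarith)]
    have := Real.exp_one_lt_d9
    linarith
  have hL0 : 0 < L := by linarith
  set η0 : ℝ := (X : ℝ) ^ (-(d : ℝ)) with hη0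
  set ηm : ℝ := (X : ℝ) ^ (-(d : ℝ) + hs) with hηm
  have hη0p : 0 < η0 := Real.rpow_pos_of_pos hX0 _
  have hηmp : 0 < ηm := Real.rpow_pos_of_pos hX0 _
  have hηm2 : ηm ≤ 1 / 2 := hX4 X hXc
  have hη0m : η0 ≤ ηm := Real.rpow_le_rpow_of_exponent_le hX1 (by linarith)
  have hηmeq : ηm = (X : ℝ) ^ hs * η0 := by
    rw [hηm, hη0, ← Real.rpow_add hX0]
    congr 1
    ring
  set Y : ℝ := (X : ℝ) ^ (1 - (d : ℝ)) with hY
  have hYp : 0 < Y := Real.rpow_pos_of_pos hX0 _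
  have hXη0 : X * η0 = Y := by
    rw [hη0, hY, sub_eq_add_neg, Real.rpow_add hX0, Real.rpow_one]
  -- the mean squares
  have hg0 : ∀ η : ℝ, 0 < η → η ≤ 1 / 2 → ∫⁻ β in Arc 0 η, gg d X (FF d (c 0) (b 0)) β ≤
      ENNReal.ofReal (C3 0 * L ^ 2 * (X * η + Y)) := fun η h3 h4 =>
    gg_int d X _ η _ fun θ hθ => H3 0 X θ η hXa hθ h3 h4
  have hg1 : ∀ η : ℝ, 0 < η → η ≤ 1 / 2 → ∫⁻ β in Arc 0 η, gg d X (FF d (c 1) (b 1)) β ≤
      ENNReal.ofReal (C3 1 * L ^ 2 * (X * η + Y)) := fun η h3 h4 =>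
    gg_int d X _ η _ fun θ hθ => H3 1 X θ η hXb hθ h3 h4
  have hpc : ∀ (I : Set ℝ) (η M : ℝ), 0 ≤ M → MeasurableSet I → I ⊆ Arc 0 η → 0 < η → η ≤ 1 / 2 →
      (∀ β ∈ I, ∀ i, hh d X (FF d (c i) (b i)) β ≤ ENNReal.ofReal M) →
      ∫⁻ β in I, ∏ i, hh d X (FF d (c i) (b i)) β ≤
        ENNReal.ofReal (M ^ s * (C0 * L ^ 2 * (X * η + Y))) := by
    intro I η M hM hIm hI hη hη2 hb
    have h3 := piece s d X (fun i => FF d (c i) (b i)) I η M _ _ hM hIm hI hb (hg0 η hη hη2)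
      (by have := hC3 0; positivity) (hg1 η hη hη2) (by have := hC3 1; positivity)
    refine h3.trans (le_of_eq ?_)
    congr 1
    rw [hC0]
    ring
  set P : ℝ := (X : ℝ) ^ ((s : ℝ) + 2 - d - 1) + (X : ℝ) ^ (((s : ℝ) + 2) / 2 - d + hs) with hP
  have hP1 : 0 < (X : ℝ) ^ ((s : ℝ) + 2 - d - 1) := Real.rpow_pos_of_pos hX0 _
  have hP2 : 0 < (X : ℝ) ^ (((s : ℝ) + 2) / 2 - d + hs) := Real.rpow_pos_of_pos hX0 _
  have hPp : 0 < P := add_pos hP1 hP2
  set A : ℝ := 2 ^ (s + 1) * C0 * L ^ (s + 2) * P with hA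
  set B : ℝ := 3 * (C0 * (Real.sqrt C2 ^ s * Real.sqrt 2 ^ s)) * L ^ (s + 2) * P with hB
  have hAp : 0 ≤ A := by positivity
  have hBp : 0 ≤ B := by positivity
  -- the central piece
  have hbase : ∫⁻ β in Arc 0 η0, ∏ i, hh d X (FF d (c i) (b i)) β ≤ ENNReal.ofReal A := by
    have h3 := hpc (Arc 0 η0) η0 (2 * X * L) (by positivity) (measurableSet_Arc _ _) subset_rfl
      hη0p (hη0m.trans hηm2) (by
        intro β _ i
        refine hh_le_real d X _ β _ fun θ => ?_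
        refine (TQ_norm_le d _ X (by omega) θ β).trans ?_
        rw [← hL]
        exact mul_le_mul_of_nonneg_right (by linarith) hL0.le)
    refine h3.trans (ENNReal.ofReal_le_ofReal ?_)
    rw [hXη0, hA]
    have h4 : (X : ℝ) ^ s * Y = (X : ℝ) ^ ((s : ℝ) + 2 - d - 1) := by
      rw [hY, ← Real.rpow_natCast, ← Real.rpow_add hX0]
      congr 1
      ring
    calc (2 * X * L) ^ s * (C0 * L ^ 2 * (Y + Y)) = 2 ^ (s + 1) * C0 * L ^ (s + 2) * (X ^ s * Y) := by
          rw [mul_pow, mul_pow]; ring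
      _ ≤ 2 ^ (s + 1) * C0 * L ^ (s + 2) * P := by
          refine mul_le_mul_of_nonneg_left ?_ (by positivity)
          rw [h4, hP]
          linarith
  -- the dyadic pieces
  have hdy : ∀ j : ℕ, (2 : ℝ) ^ j ≤ (X : ℝ) ^ hs →
      ∫⁻ β in Arc (2 ^ j * η0) (min (2 ^ (j + 1) * η0) ηm), ∏ i, hh d X (FF d (c i) (b i)) β ≤
        ENNReal.ofReal B := by
    intro j hj
    set U : ℝ := (2 : ℝ) ^ j with hU
    have hU1 : 1 ≤ U := one_le_pow₀ one_le_two
    have hU0 : 0 < U := by linarith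
    set η : ℝ := min (2 ^ (j + 1) * η0) ηm with hη
    have hηp : 0 < η := lt_min (by positivity) hηmp
    have hη2 : η ≤ 1 / 2 := (min_le_right _ _).trans hηm2
    have hηU : η ≤ 2 * U * η0 := by
      refine (min_le_left _ _).trans (le_of_eq ?_)
      rw [hU, pow_succ]
      ring
    set M : ℝ := Real.sqrt C2 * L * Real.sqrt (X * (1 + X / U)) with hM
    have hMp : 0 ≤ M := by positivity
    have h3 := hpc (Arc (U * η0) η) η M hMp (measurableSet_Arc _ _)
      (fun β hβ => ⟨abs_nonneg _, hβ.2⟩) hηp hη2 (by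
        intro β hβ i
        have hβ0 : 0 < |β| := lt_of_lt_of_le (by positivity) hβ.1
        refine hh_le_sqrt d X _ β M hMp ?_
        refine (H2 X _ β hXd hβ0 (hβ.2.trans hη2)).trans (ENNReal.ofReal_le_ofReal ?_)
        have h5 : M ^ 2 = C2 * L ^ 2 * X * (1 + X / U) := by
          rw [hM, mul_pow, mul_pow, Real.sq_sqrt hC2.le, Real.sq_sqrt (by positivity)]
          ring
        rw [h5]
        refine mul_le_mul_of_nonneg_left ?_ (by positivity)
        have h6 : 1 / (|β| * (X : ℝ) ^ (d - 1)) ≤ X / U := by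
          rw [div_le_div_iff₀ (by positivity) hU0, one_mul]
          have h7 : U * η0 * (X : ℝ) ^ (d - 1) ≤ |β| * (X : ℝ) ^ (d - 1) :=
            mul_le_mul_of_nonneg_right hβ.1 (by positivity)
          have h8 : U * η0 * (X : ℝ) ^ (d - 1) * X = U := by
            have h9 : η0 * ((X : ℝ) ^ (d - 1) * X) = 1 := by
              rw [← pow_succ, Nat.sub_add_cancel hd, hη0, Real.rpow_neg hX0.le, Real.rpow_natCast]
              exact inv_mul_cancel₀ (by positivity)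
            calc U * η0 * (X : ℝ) ^ (d - 1) * X = U * (η0 * ((X : ℝ) ^ (d - 1) * X)) := by ring
              _ = U := by rw [h9, mul_one]
          calc U = U * η0 * (X : ℝ) ^ (d - 1) * X := h8.symm
            _ ≤ |β| * (X : ℝ) ^ (d - 1) * X := mul_le_mul_of_nonneg_right h7 hX0.le
            _ = X * (|β| * (X : ℝ) ^ (d - 1)) := by ring
        linarith)
    refine h3.trans (ENNReal.ofReal_le_ofReal ?_)
    have h4 := dyad s d X U hs hs2 hX1 hU1 hj
    rw [← hY, ← hP] at h4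
    have h5 : X * η + Y ≤ 3 * (U * Y) := by
      have h6 : X * η ≤ 2 * U * Y := by
        calc X * η ≤ X * (2 * U * η0) := mul_le_mul_of_nonneg_left hηU hX0.le
          _ = 2 * U * (X * η0) := by ring
          _ = 2 * U * Y := by rw [hXη0]
      have h7 : Y ≤ U * Y := le_mul_of_one_le_left hYp.le hU1
      linarith
    calc M ^ s * (C0 * L ^ 2 * (X * η + Y)) ≤ M ^ s * (C0 * L ^ 2 * (3 * (U * Y))) := by
          refine mul_le_mul_of_nonneg_left ?_ (by positivity)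
          exact mul_le_mul_of_nonneg_left h5 (by positivity)
      _ = 3 * (C0 * Real.sqrt C2 ^ s) * L ^ (s + 2) *
            (Real.sqrt (X * (1 + X / U)) ^ s * (U * Y)) := by
          rw [hM, mul_pow, mul_pow]; ring
      _ ≤ 3 * (C0 * Real.sqrt C2 ^ s) * L ^ (s + 2) * (Real.sqrt 2 ^ s * P) :=
          mul_le_mul_of_nonneg_left h4 (by positivity)
      _ = B := by rw [hB]; ring
  -- induction
  have key : ∀ j : ℕ, ∫⁻ β in Arc 0 (min (2 ^ j * η0) ηm), ∏ i, hh d X (FF d (c i) (b i)) β ≤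
      ENNReal.ofReal (A + j * B) := by
    intro j
    induction j with
    | zero =>
      rw [pow_zero, one_mul, Nat.cast_zero, zero_mul, add_zero, min_eq_left hη0m]
      exact hbase
    | succ j ih =>
      by_cases hj : (2 : ℝ) ^ j ≤ (X : ℝ) ^ hs
      · have hsub : Arc 0 (min (2 ^ (j + 1) * η0) ηm) ⊆
            Arc 0 (min (2 ^ j * η0) ηm) ∪ Arc (2 ^ j * η0) (min (2 ^ (j + 1) * η0) ηm) := by
          intro β hβ
          rcases lt_or_ge |β| (2 ^ j * η0) with h3 | h3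
          · left
            exact ⟨hβ.1, le_min h3.le (hβ.2.trans (min_le_right _ _))⟩
          · right
            exact ⟨h3, hβ.2⟩
        refine (lintegral_mono_set hsub).trans ((lintegral_union_le _ _ _).trans ?_)
        refine (add_le_add ih (hdy j hj)).trans (le_of_eq ?_)
        rw [← ENNReal.ofReal_add (by positivity) hBp]
        congr 1
        push_cast
        ring
      · push Not at hj
        have h3 : ηm ≤ 2 ^ j * η0 := by
          rw [hηmeq]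
          exact mul_le_mul_of_nonneg_right hj.le hη0p.le
        have h4 : ηm ≤ 2 ^ (j + 1) * η0 := by
          refine h3.trans (mul_le_mul_of_nonneg_right ?_ hη0p.le)
          exact pow_le_pow_right₀ one_le_two (Nat.le_succ j)
        rw [min_eq_right h4]
        rw [min_eq_right h3] at ih
        refine ih.trans (ENNReal.ofReal_le_ofReal ?_)
        push_cast
        nlinarith
  set J : ℕ := J0 * (Nat.log 2 X + 1) with hJ
  have hJb : (X : ℝ) ^ hs ≤ (2 : ℝ) ^ J := by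
    have h3 : (X : ℝ) ≤ (2 : ℝ) ^ (Nat.log 2 X + 1) := by
      have := Nat.lt_pow_succ_log_self (b := 2) (by norm_num) X
      exact_mod_cast this.le
    calc (X : ℝ) ^ hs ≤ (X : ℝ) ^ (J0 : ℝ) :=
          Real.rpow_le_rpow_of_exponent_le hX1 (Nat.le_ceil hs)
      _ = (X : ℝ) ^ J0 := Real.rpow_natCast _ _
      _ ≤ ((2 : ℝ) ^ (Nat.log 2 X + 1)) ^ J0 := pow_le_pow_left₀ hX0.le h3 _
      _ = (2 : ℝ) ^ J := by rw [← pow_mul, hJ, mul_comm]
  have hJL : (J : ℝ) ≤ 2 * J0 * L := by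
    have h3 : ((Nat.log 2 X : ℝ) + 1) * Real.log 2 ≤ L := by
      have h4 : (2 : ℝ) ^ Nat.log 2 X ≤ X := by
        exact_mod_cast Nat.pow_log_le_self 2 (by omega)
      have h5 := Real.log_le_log (by positivity) h4
      rw [Real.log_pow] at h5
      rw [hL, Real.log_mul two_ne_zero hX0.ne']
      linarith
    have h6 : (1 : ℝ) / 2 < Real.log 2 := by
      have := Real.log_two_gt_d9
      linarith
    have h7 : (0 : ℝ) ≤ (Nat.log 2 X : ℝ) := Nat.cast_nonneg _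
    have h8 : (Nat.log 2 X : ℝ) + 1 ≤ 2 * L := by nlinarith
    rw [hJ]
    push_cast
    calc (J0 : ℝ) * ((Nat.log 2 X : ℝ) + 1) ≤ J0 * (2 * L) :=
          mul_le_mul_of_nonneg_left h8 (Nat.cast_nonneg _)
      _ = 2 * J0 * L := by ring
  have hfin := key J
  have h3 : ηm ≤ 2 ^ J * η0 := by
    rw [hηmeq]
    exact mul_le_mul_of_nonneg_right hJb hη0p.le
  rw [min_eq_right h3] at hfin
  refine hfin.trans (ENNReal.ofReal_le_ofReal ?_)
  have h4 : (((s + 2 : ℕ) : ℝ)) = (s : ℝ) + 2 := by push_cast; ring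
  rw [h4, ← hP]
  have h5 : A ≤ 2 ^ (s + 1) * C0 * L ^ (s + 2 + 1) * P := by
    rw [hA]
    refine mul_le_mul_of_nonneg_right ?_ hPp.le
    refine mul_le_mul_of_nonneg_left ?_ (by positivity)
    exact pow_le_pow_right₀ hL1 (Nat.le_succ _)
  have h6 : (J : ℝ) * B ≤ 2 * J0 * L * B := mul_le_mul_of_nonneg_right hJL hBp
  calc A + J * B ≤ 2 ^ (s + 1) * C0 * L ^ (s + 2 + 1) * P + 2 * J0 * L * B := add_le_add h5 h6
    _ = _ := by rw [hB]; ring

end Pool.Agent.N277.KV
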