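import Pool.Agent.N988.EC.Stm
import Pool.Agent.N645.EZ_MXRS

/-!
# Project EC (helper988), parts CELL and INJ (helper277)
-/

set_option autoImplicit false

open MeasureTheory Set Filter
open scoped ENNReal Topology
open Pool.Agent.N988.EA Pool.Agent.N988.EZ Pool.Agent.N988.EC

namespace Pool.Agent.N277.EC

theorem elim_emb {b n : ℕ} (i : Fin b) (h : Bool) (τ : Bool → Bool) (σ : Vert b (n + 1) → Bool)
    (y : Pt b n) : (Sum.elim τ σ : Pt b (n + 1) → Bool) (emb i h y) =
      (Sum.elim (he τ h (σ (Sum.inl i))) (fun x => σ (Sum.inr (i, h, x))) : Pt b n → Bool) y := by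
  rcases y with s | x
  · by_cases hs : s = h
    · subst hs
      simp [emb, he]
    · simp only [emb, he, if_neg hs, Sum.elim_inr, Sum.elim_inl]
  · rfl

theorem cell_aux (b N n : ℕ) (hNn : N ≤ n) : ∀ e : Edge b n, ∃ (f : Edge b N → Edge b n)
    (e₀ : Edge b N), Function.Injective f ∧ f e₀ = e ∧
      ∀ (J : Edge b n → ℝ) (τ' : Bool → Bool) (σ' : Vert b n → Bool), Mx J τ' σ' →
        ∃ (τ : Bool → Bool) (s : Vert b N → Bool), Mx (fun a => J (f a)) τ s ∧
          bond (Sum.elim τ s : Pt b N → Bool) e₀ = bond (Sum.elim τ' σ' : Pt b n → Bool) e := by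
  induction n, hNn using Nat.le_induction with
  | base =>
    intro e
    exact ⟨fun a => a, e, fun a b h => h, rfl, fun J τ' σ' h => ⟨τ', σ', h, rfl⟩⟩
  | succ n hNn ih =>
    rintro ⟨i, h, e'⟩
    obtain ⟨f, e₀, hf, hfe, hJ⟩ := ih e'
    refine ⟨fun a => (i, h, f a), e₀, ?_, ?_, ?_⟩
    · intro a a' haa
      apply hf
      have h1 : ((i, h, f a) : Fin b × Bool × Edge b n) = (i, h, f a') := haa
      rw [Prod.mk.injEq, Prod.mk.injEq] at h1
      exact h1.2.2
    · simp only [hfe]
    · intro J τ' σ' hM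
      have h1 := (((Pool.Agent.N645.EZ.t_RS b n J τ' σ').1 hM) i).1 h
      obtain ⟨τ, s, hs, hb⟩ := hJ (fun e => J (i, h, e)) _ _ h1
      refine ⟨τ, s, hs, ?_⟩
      rw [hb]
      unfold bond
      have h2 : ∀ t : Bool, bd (n + 1) (i, h, e') t = emb i h (bd n e' t) := fun t => rfl
      rw [h2, h2, elim_emb, elim_emb]

theorem t_CELL : S_CELL := by
  intro b N n hNn e
  obtain ⟨f, e₀, hf, hfe, hJ⟩ := cell_aux b N n hNn e
  refine ⟨f, e₀, hf, hfe, fun J σ hσ => ?_⟩
  have hM : Mx J (fun t => σ (.inl t)) (fun x => σ (.inr x)) := by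
    intro s
    have := hσ (Sum.elim (fun t => σ (.inl t)) s)
    exact this
  obtain ⟨τ, s, hs, hb⟩ := hJ J _ _ hM
  refine ⟨τ, s, hs, ?_⟩
  rw [hb]
  congr 1
  funext y
  rcases y with t | x <;> rfl

theorem t_INJ : S_INJ := by
  intro ι κ α _ _ _ ν _ f hf
  classical
  symm
  apply Measure.pi_eq
  intro s hs
  have hmeas : Measurable fun (x : ι → α) (k : κ) => x (f k) := by fun_prop
  rw [Measure.map_apply hmeas (MeasurableSet.univ_pi hs)]
  have hpre : (fun (x : ι → α) (k : κ) => x (f k)) ⁻¹' Set.pi univ s =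
      Set.pi univ (Function.extend f s (fun _ => univ)) := by
    ext x
    simp only [Set.mem_preimage, Set.mem_pi, Set.mem_univ, true_implies]
    constructor
    · intro h i
      by_cases hi : ∃ k, f k = i
      · obtain ⟨k, rfl⟩ := hi
        rw [hf.extend_apply]
        exact h k
      · rw [Function.extend_apply' _ _ _ hi]
        trivial
    · intro h k
      have := h (f k)
      rwa [hf.extend_apply] at this
  rw [hpre, Measure.pi_pi]
  symm
  refine Fintype.prod_of_injective f hf _ _ ?_ ?_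
  · intro i hi
    rw [Function.extend_apply' _ _ _ (fun ⟨k, hk⟩ => hi ⟨k, hk⟩), measure_univ]
  · intro k
    rw [hf.extend_apply]

end Pool.Agent.N277.EC
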