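import Pool.Agent.N906.KG.Nt
import Pool.Agent.N906.EQ.Unit

/-!
# Project KG, part REPK: good integral coordinates of a point (helper277)

The existence of primitive vectors follows `Pool/Agent/N906/EQ/Orbit.lean`.
-/

set_option autoImplicit false
set_option linter.unusedSectionVars false

namespace Pool.Agent.N277.KG

open NumberField NumberField.InfinitePlace Module Finset Pool.Agent.N906.EQ
open scoped nonZeroDivisors

section

variable {K : Type} [Field K] [NumberField K] {n : ℕ}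

/-- an ideal in every class -/
noncomputable def Jc (c : ClassGroup (𝓞 K)) : Ideal (𝓞 K) :=
  ((ClassGroup.mk0_surjective c).choose : Ideal (𝓞 K))

lemma Jc_mem (c : ClassGroup (𝓞 K)) : Jc c ∈ (Ideal (𝓞 K))⁰ :=
  (ClassGroup.mk0_surjective c).choose.2

lemma Jc_mk (c : ClassGroup (𝓞 K)) : ClassGroup.mk0 ⟨Jc c, Jc_mem c⟩ = c :=
  (ClassGroup.mk0_surjective c).choose_spec

lemma Jc_ne (c : ClassGroup (𝓞 K)) : Jc c ≠ ⊥ := nonZeroDivisors.ne_zero (Jc_mem c)

/-- the ideal generated by the coordinates -/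
def idc (v : Fin n → 𝓞 K) : Ideal (𝓞 K) := Ideal.span (Set.range v)

lemma idc_smul (a : 𝓞 K) (v : Fin n → 𝓞 K) : idc (a • v) = Ideal.span {a} * idc v := by
  unfold idc
  rw [Ideal.span_mul_span']
  congr 1
  ext x
  constructor
  · rintro ⟨i, rfl⟩
    exact Set.mul_mem_mul (Set.mem_singleton a) ⟨i, rfl⟩
  · rintro ⟨_, rfl, _, ⟨i, rfl⟩, rfl⟩
    exact ⟨i, rfl⟩

lemma idc_ne {v : Fin n → 𝓞 K} (h : v ≠ 0) : idc v ≠ ⊥ := by
  intro h1
  apply h
  funext i
  have h2 : v i ∈ idc v := Ideal.subset_span ⟨i, rfl⟩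
  rw [h1] at h2
  exact h2

/-- every point has a primitive vector -/
theorem exists_prim (x : Fin n → K) (hx : x ≠ 0) : ∃ (c : ClassGroup (𝓞 K))
    (y : Fin n → 𝓞 K) (t : K), idc y = Jc c ∧ t ≠ 0 ∧ ∀ i, (y i : K) = t * x i := by
  classical
  obtain ⟨b, hb⟩ := IsLocalization.exist_integer_multiples_of_finset (nonZeroDivisors (𝓞 K))
    (univ.image x)
  have hb0 : (b : 𝓞 K) ≠ 0 := nonZeroDivisors.ne_zero b.2
  have hbK : ((b : 𝓞 K) : K) ≠ 0 := by
    intro h
    exact hb0 (FaithfulSMul.algebraMap_injective (𝓞 K) K (h.trans (map_zero _).symm))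
  have h1 : ∀ i, ∃ y : 𝓞 K, (y : K) = (b : 𝓞 K) * x i := by
    intro i
    obtain ⟨y, hy⟩ := hb (x i) (mem_image_of_mem x (mem_univ i))
    refine ⟨y, ?_⟩
    have h2 : (b : 𝓞 K) • x i = ((b : 𝓞 K) : K) * x i := Algebra.smul_def _ _
    rw [← h2]
    exact hy
  choose y hy using h1
  have hy0 : y ≠ 0 := by
    intro h
    apply hx
    funext i
    have h2 := hy i
    rw [h] at h2
    have h3 : ((b : 𝓞 K) : K) * x i = 0 := h2.symm.trans (map_zero (algebraMap (𝓞 K) K))
    exact (mul_eq_zero.1 h3).resolve_left hbK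
  have hI : idc y ∈ (Ideal (𝓞 K))⁰ := mem_nonZeroDivisors_of_ne_zero (idc_ne hy0)
  set c := ClassGroup.mk0 ⟨idc y, hI⟩ with hc
  have h2 : ClassGroup.mk0 ⟨idc y, hI⟩ = ClassGroup.mk0 ⟨Jc c, Jc_mem c⟩ := by rw [Jc_mk]
  obtain ⟨p, q, hp, hq, hpq⟩ := (ClassGroup.mk0_eq_mk0_iff).1 h2
  simp only at hpq
  have h3 : ∀ i, ∃ w : 𝓞 K, p * y i = q * w := by
    intro i
    have h4 : p * y i ∈ Ideal.span {q} * Jc c := by
      rw [← hpq]
      exact Ideal.mul_mem_mul (Ideal.mem_span_singleton_self p) (Ideal.subset_span ⟨i, rfl⟩)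
    obtain ⟨w, hw⟩ := Ideal.mem_span_singleton'.1 (Ideal.mul_le_left (I := Ideal.span {q}) h4)
    exact ⟨w, by rw [← hw, mul_comm]⟩
  choose w hw using h3
  have h4 : p • y = q • w := funext hw
  have h5 : Ideal.span {q} * idc w = Ideal.span {q} * Jc c := by
    rw [← idc_smul, ← h4, idc_smul]
    exact hpq
  have h6 : idc w = Jc c :=
    mul_left_cancel₀ (by rw [Ne, Ideal.zero_eq_bot, Ideal.span_singleton_eq_bot]; exact hq) h5
  have hpK : (p : K) ≠ 0 := by
    intro h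
    exact hp (FaithfulSMul.algebraMap_injective (𝓞 K) K (h.trans (map_zero _).symm))
  have hqK : (q : K) ≠ 0 := by
    intro h
    exact hq (FaithfulSMul.algebraMap_injective (𝓞 K) K (h.trans (map_zero _).symm))
  refine ⟨c, w, (p : K) * (b : 𝓞 K) / q, h6, div_ne_zero (mul_ne_zero hpK hbK) hqK, ?_⟩
  intro i
  have h7 : (p : K) * (y i : K) = (q : K) * (w i : K) := by
    have := congrArg (algebraMap (𝓞 K) K) (hw i)
    rwa [map_mul, map_mul] at this
  rw [hy] at h7
  field_simp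
  linear_combination -h7

end

theorem repk (K : Type) [Field K] [NumberField K] : Pool.Agent.N906.KG.S_REPK K := by
  classical
  intro n hn
  obtain ⟨R, hR, hcov⟩ := cover K
  have hd : (0 : ℝ) < finrank ℚ K := fr_pos
  set G : ℝ := ∑ c : ClassGroup (𝓞 K), |Real.log (Ideal.absNorm (Jc c))| with hG
  have hG0 : 0 ≤ G := sum_nonneg fun _ _ => abs_nonneg _
  have hGc : ∀ c : ClassGroup (𝓞 K), |Real.log (Ideal.absNorm (Jc c))| ≤ G := fun c =>
    single_le_sum (f := fun c : ClassGroup (𝓞 K) => |Real.log (Ideal.absNorm (Jc c))|)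
      (fun _ _ => abs_nonneg _) (mem_univ c)
  refine ⟨Real.exp (R + G / finrank ℚ K), Real.one_le_exp (by positivity), ?_⟩
  intro z hz
  obtain ⟨c, y, t, hy, ht, hyt⟩ := exists_prim z hz
  have hyz : (fun i => (y i : K)) = t • z := funext hyt
  have hy0 : (fun i => (y i : K)) ≠ 0 := by
    rw [hyz]
    exact smul_ne_zero ht hz
  have hy0' : y ≠ 0 := by
    rintro rfl
    exact hy0 (funext fun i => map_zero (algebraMap (𝓞 K) K))
  have hne : Nonempty (Fin n) := ⟨⟨0, hn⟩⟩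
  set T : InfinitePlace K → ℝ := fun w => Real.log (⨆ i, w (y i : K)) with hT
  have hpos : ∀ w : InfinitePlace K, 0 < ⨆ i, w (y i : K) := by
    intro w
    obtain ⟨i, hi⟩ := Function.ne_iff.1 hy0
    have hi' : 0 < w (y i : K) := InfinitePlace.pos_iff.2 hi
    exact lt_of_lt_of_le hi'
      (le_ciSup (f := fun i => w (y i : K)) (Set.finite_range _).bddAbove i)
  have hheight : Height.logHeight z =
      ∑ w, (w.mult : ℝ) * T w - Real.log (Ideal.absNorm (Jc c)) := by
    have h1 := NumberField.absNorm_mul_finprod_finitePlace_eq_one hy0'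
    have h1' : (Ideal.absNorm (Jc c) : ℝ) * ∏ᶠ v : FinitePlace K, ⨆ i, v (y i : K) = 1 := by
      rw [← hy]
      exact h1
    have h2 : ∏ᶠ v : FinitePlace K, ⨆ i, v (y i : K) = (Ideal.absNorm (Jc c) : ℝ)⁻¹ :=
      eq_inv_of_mul_eq_one_right h1'
    have hN : (Ideal.absNorm (Jc c) : ℝ) ≠ 0 := left_ne_zero_of_mul_eq_one h1'
    rw [← Height.logHeight_smul_eq_logHeight z ht, ← hyz, Height.logHeight_eq_log_mulHeight,
      NumberField.mulHeight_eq hy0, h2, Real.log_mul, Real.log_prod, Real.log_inv,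
      sub_eq_add_neg]
    · congr 1
      refine sum_congr rfl fun w _ => ?_
      rw [Real.log_pow]
    · intro w _
      exact (pow_pos (hpos w) _).ne'
    · exact (prod_pos fun w _ => pow_pos (hpos w) _).ne'
    · exact inv_ne_zero hN
  obtain ⟨u, hu⟩ := hcov T
  have hu0 : ((u : 𝓞 K) : K) ≠ 0 := by
    intro h
    exact u.ne_zero (FaithfulSMul.algebraMap_injective (𝓞 K) K (h.trans (map_zero _).symm))
  refine ⟨((u : 𝓞 K) : K) * t, fun i => (u : 𝓞 K) * y i, mul_ne_zero hu0 ht, ?_, ?_⟩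
  · intro i
    have e1 : algebraMap (𝓞 K) K ((u : 𝓞 K) * y i) =
        algebraMap (𝓞 K) K (u : 𝓞 K) * algebraMap (𝓞 K) K (y i) := map_mul _ _ _
    have e2 : algebraMap (𝓞 K) K (y i) = t * z i := hyt i
    rw [e2, ← mul_assoc] at e1
    exact e1
  intro w
  have hsup : (⨆ i, w (((u : 𝓞 K) * y i : 𝓞 K) : K)) =
      w ((u : 𝓞 K) : K) * ⨆ i, w (y i : K) := by
    rw [Real.mul_iSup_of_nonneg (apply_nonneg w _)]
    refine iSup_congr fun i => ?_
    have e1 : algebraMap (𝓞 K) K ((u : 𝓞 K) * y i) =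
        algebraMap (𝓞 K) K (u : 𝓞 K) * algebraMap (𝓞 K) K (y i) := map_mul _ _ _
    exact (congrArg w e1).trans (map_mul w _ _)
  have hwu : 0 < w ((u : 𝓞 K) : K) := InfinitePlace.pos_iff.2 hu0
  have hmn : mn T = (Height.logHeight z + Real.log (Ideal.absNorm (Jc c))) / finrank ℚ K := by
    unfold mn
    rw [hheight]
    congr 1
    ring
  have h3 := (norm_le_pi_norm (fun w => (T + lu u) w - mn (T + lu u)) w).trans hu
  rw [mn_add_lu, Real.norm_eq_abs, hmn] at h3
  have h4 : (T + lu u) w = Real.log (⨆ i, w (((u : 𝓞 K) * y i : 𝓞 K) : K)) := by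
    rw [hsup, Real.log_mul hwu.ne' (hpos w).ne', add_comm]
    rfl
  rw [h4] at h3
  have hsp : 0 < ⨆ i, w (((u : 𝓞 K) * y i : 𝓞 K) : K) := by
    rw [hsup]
    exact mul_pos hwu (hpos w)
  have h5 : |Real.log (Ideal.absNorm (Jc c)) / finrank ℚ K| ≤ G / finrank ℚ K := by
    rw [abs_div, abs_of_pos hd]
    exact div_le_div_of_nonneg_right (hGc c) hd.le
  rw [add_div] at h3
  rw [abs_le] at h3 h5
  constructor
  · rw [← Real.exp_neg, ← Real.exp_add, ← Real.le_log_iff_exp_le hsp]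
    linarith [h3.1, h5.1]
  · rw [← Real.exp_add, ← Real.log_le_iff_le_exp hsp]
    linarith [h3.2, h5.2]

end Pool.Agent.N277.KG
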