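import Pool.Agent.N795.LN.Stm
import Pool.Agent.N935.STgain

/-!
# LN (helper795), DET: growth of the mass of long cycles under a random transposition
-/

set_option autoImplicit false

namespace Pool.Agent.N795.LN

open Finset Equiv
open Pool.Agent.W805.LR (len cnt)
open Pool.Agent.TH268.PD (mas)
open Pool.Agent.TH268.PD.Drift

namespace N277Det

variable {V : Type} [Fintype V] [DecidableEq V]

open Classical in
/-- indicator of `K2 ≤ l` -/
noncomputable def f (K2 l : ℝ) : ℝ := if K2 ≤ l then 1 else 0

open Classical in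
/-- `l` if `l < K2` -/
noncomputable def sm (K2 l : ℝ) : ℝ := if l < K2 then l else 0

lemma mas_sum (K2 : ℝ) (g : Perm V) : mas K2 g = (∑ v, f K2 (len g v)) / Fintype.card V := by
  classical
  unfold mas f cnt
  rfl

lemma f_mul (K2 l : ℝ) : l * f K2 l = l - sm K2 l := by
  unfold f sm
  by_cases h : K2 ≤ l
  · rw [if_pos h, if_neg (not_lt.2 h)]; ring
  · rw [if_neg h, if_pos (not_le.1 h)]; ring

lemma sm_nonneg {K2 l : ℝ} (hl : 0 ≤ l) : 0 ≤ sm K2 l := by
  unfold sm
  split_ifs
  · exact hl
  · exact le_rfl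

lemma sm_add {K2 p q : ℝ} (hp : 0 ≤ p) (hq : 0 ≤ q) : sm K2 (p + q) ≤ sm K2 p + sm K2 q := by
  unfold sm
  by_cases h : p + q < K2
  · rw [if_pos h, if_pos (by linarith), if_pos (by linarith)]
  · rw [if_neg h]
    exact add_nonneg (sm_nonneg hp) (sm_nonneg hq)

open Classical in
/-- the sum of the small numbers -/
lemma sum_sm {K2 : ℝ} (hK : 0 ≤ K2) (m : ℕ) :
    ∑ i ∈ range m, sm K2 (i : ℝ) ≤ K2 ^ 2 := by
  have h1 : ∀ i ∈ range m, sm K2 (i : ℝ) ≤
      K2 * (if 0 < i then (if (i : ℝ) < K2 then (1 : ℝ) else 0) else 0) := by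
    intro i _
    unfold sm
    rcases Nat.eq_zero_or_pos i with h | h
    · subst h
      simp
    · rw [if_pos h]
      by_cases h2 : (i : ℝ) < K2
      · rw [if_pos h2, if_pos h2]; linarith
      · rw [if_neg h2, if_neg h2]; simp
  refine (sum_le_sum h1).trans ?_
  rw [← mul_sum, pow_two]
  exact mul_le_mul_of_nonneg_left (Pool.Agent.N795.ST.N935Gain.count_lt K2 hK m) hK

open Classical in
/-- both points in window cycles -/
def Win (K : ℝ) (g : Perm V) (a b : V) : Prop :=
  (K ≤ len g a ∧ len g a < 2 * K) ∧ (K ≤ len g b ∧ len g b < 2 * K)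

open Classical in
/-- the bound for one point -/
lemma per_point [Nonempty V] (g : Perm V) (a : V) (W : V → ℝ) (u K : ℝ) (hK : 0 < K)
    (h0 : ∀ b, 0 ≤ W b) (hu : ∀ b, W b ≤ u) :
    ∑ b, (K / Fintype.card V * (if Win K g a b then W b else 0) -
      W b / 2 * (mas (2 * K) (g * swap a b) - mas (2 * K) g)) ≤
        6 * u * K ^ 2 / Fintype.card V := by
  set N : ℝ := (Fintype.card V : ℝ) with hN
  have hN0 : 0 < N := by rw [hN]; exact_mod_cast Fintype.card_pos
  have hu0 : 0 ≤ u := (h0 a).trans (hu a)
  set T : V → ℝ := fun b => K / N * (if Win K g a b then W b else 0) -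
      W b / 2 * (mas (2 * K) (g * swap a b) - mas (2 * K) g) with hT
  have hcross : ∀ b, T b ≤ if g.SameCycle a b then T b else 0 := by
    intro b
    by_cases hab : g.SameCycle a b
    · rw [if_pos hab]
    · rw [if_neg hab]
      simp only [hT]
      rw [mas_sum, mas_sum, ← sub_div, merge_sum (f (2 * K)) g a b hab, f_mul, f_mul, f_mul, ← hN]
      have hla := len_nonneg g a
      have hlb := len_nonneg g b
      have hs := sm_add (K2 := 2 * K) hla hlb
      by_cases hw : Win K g a b
      · rw [if_pos hw]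
        obtain ⟨⟨a1, a2⟩, ⟨b1, b2⟩⟩ := hw
        have e1 : sm (2 * K) (len g a) = len g a := by unfold sm; rw [if_pos a2]
        have e2 : sm (2 * K) (len g b) = len g b := by unfold sm; rw [if_pos b2]
        have e3 : sm (2 * K) (len g a + len g b) = 0 := by
          unfold sm
          rw [if_neg (by linarith)]
        rw [e1, e2, e3]
        have hW := h0 b
        have h5 : K / N * W b ≤ W b / 2 * ((2 * K) / N) := by
          apply le_of_eq
          field_simp
        have h6 : W b / 2 * ((2 * K) / N) ≤ W b / 2 *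
            ((len g a + len g b - 0 - (len g a - len g a) - (len g b - len g b)) / N) := by
          apply mul_le_mul_of_nonneg_left _ (by positivity)
          apply div_le_div_of_nonneg_right _ hN0.le
          linarith
        linarith
      · rw [if_neg hw]
        have hW := h0 b
        have : 0 ≤ (len g a + len g b - sm (2 * K) (len g a + len g b) -
            (len g a - sm (2 * K) (len g a)) - (len g b - sm (2 * K) (len g b))) / N :=
          div_nonneg (by linarith) hN0.le
        have h7 := mul_nonneg (show (0 : ℝ) ≤ W b / 2 by positivity) this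
        linarith
  refine (sum_le_sum fun b _ => hcross b).trans ?_
  rw [cyc_sum g a T]
  have hlen : len g a = per g a := len_eq_per g a
  have hTi : ∀ i ∈ range (per g a), T ((g ^ i) a) ≤
      (K * u * (if ((per g a : ℕ) : ℝ) < 2 * K then (1 : ℝ) else 0) +
        u / 2 * (sm (2 * K) (i : ℝ) + sm (2 * K) ((per g a - i : ℕ) : ℝ))) / N := by
    intro i hi
    have hi' := mem_range.1 hi
    set b := (g ^ i) a with hb
    have hq0 : (0 : ℝ) ≤ ((per g a - i : ℕ) : ℝ) := Nat.cast_nonneg _
    have hi0 : (0 : ℝ) ≤ (i : ℝ) := Nat.cast_nonneg _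
    have hwin : K / N * (if Win K g a b then W b else 0) ≤
        K * u * (if ((per g a : ℕ) : ℝ) < 2 * K then (1 : ℝ) else 0) / N := by
      by_cases hw : Win K g a b
      · rw [if_pos hw]
        have h2 := hw.1.2
        rw [hlen] at h2
        rw [if_pos h2, mul_one, div_mul_eq_mul_div]
        apply div_le_div_of_nonneg_right _ hN0.le
        exact mul_le_mul_of_nonneg_left (hu b) hK.le
      · rw [if_neg hw, mul_zero]
        apply div_nonneg _ hN0.le
        split_ifs
        · positivity
        · simp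
    have hchg : -(W b / 2 * (mas (2 * K) (g * swap a b) - mas (2 * K) g)) ≤
        u / 2 * (sm (2 * K) (i : ℝ) + sm (2 * K) ((per g a - i : ℕ) : ℝ)) / N := by
      rcases Nat.eq_zero_or_pos i with h0' | h0'
      · have hba : b = a := by rw [hb, h0']; simp
        rw [hba]
        have : (g * swap a a : Perm V) = g := by rw [swap_self]; ext; rfl
        rw [this, sub_self, mul_zero, neg_zero]
        apply div_nonneg _ hN0.le
        have := sm_nonneg (K2 := 2 * K) hi0
        have := sm_nonneg (K2 := 2 * K) hq0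
        positivity
      · have hne : a ≠ b := by
          intro h3
          have := pow_inj g a (i := 0) (j := i) (per_pos g a) hi' (by simpa [hb] using h3)
          omega
        have hsame : g.SameCycle a b := ⟨(i : ℤ), by rw [zpow_natCast]⟩
        have h1 := split_sum (f (2 * K)) g a b hne hsame
        have h2 := len_split g a i h0' hi'
        have h3 := split_len g a b hne hsame
        rw [← hb] at h2
        rw [h2, hlen] at h3
        have h4 : len (g * swap a b) a = ((per g a - i : ℕ) : ℝ) := by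
          rw [Nat.cast_sub hi'.le]
          linarith
        rw [h2, h4, f_mul, f_mul, f_mul] at h1
        rw [mas_sum, mas_sum, ← sub_div, h1, ← hN]
        have hs1 := sm_nonneg (K2 := 2 * K) hi0
        have hs2 := sm_nonneg (K2 := 2 * K) hq0
        have hs3 := sm_nonneg (K2 := 2 * K) (add_nonneg hq0 hi0)
        have hW := h0 b
        have hWu := hu b
        rw [← mul_neg, ← neg_div, ← mul_div_assoc]
        apply div_le_div_of_nonneg_right _ hN0.le
        have e5 : -(-(((per g a - i : ℕ) : ℝ) + i -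
            sm (2 * K) (((per g a - i : ℕ) : ℝ) + i) -
            (((per g a - i : ℕ) : ℝ) - sm (2 * K) ((per g a - i : ℕ) : ℝ)) -
            ((i : ℝ) - sm (2 * K) (i : ℝ)))) ≤
            sm (2 * K) (i : ℝ) + sm (2 * K) ((per g a - i : ℕ) : ℝ) := by linarith
        calc W b / 2 * -(-(((per g a - i : ℕ) : ℝ) + i -
            sm (2 * K) (((per g a - i : ℕ) : ℝ) + i) -
            (((per g a - i : ℕ) : ℝ) - sm (2 * K) ((per g a - i : ℕ) : ℝ)) -
            ((i : ℝ) - sm (2 * K) (i : ℝ))))
            ≤ W b / 2 * (sm (2 * K) (i : ℝ) + sm (2 * K) ((per g a - i : ℕ) : ℝ)) :=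
              mul_le_mul_of_nonneg_left e5 (by positivity)
          _ ≤ u / 2 * (sm (2 * K) (i : ℝ) + sm (2 * K) ((per g a - i : ℕ) : ℝ)) :=
              mul_le_mul_of_nonneg_right (by linarith) (by linarith)
    rw [add_div]
    simp only [hT]
    linarith
  refine (sum_le_sum hTi).trans ?_
  rw [← sum_div]
  apply div_le_div_of_nonneg_right _ hN0.le
  rw [sum_add_distrib, sum_const, card_range, nsmul_eq_mul, ← mul_sum, sum_add_distrib]
  have hK2 : 0 ≤ 2 * K := by linarith
  have s1 := sum_sm hK2 (per g a)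
  have s2 : ∑ i ∈ range (per g a), sm (2 * K) ((per g a - i : ℕ) : ℝ) ≤ (2 * K) ^ 2 := by
    have h3 := sum_sm hK2 (per g a + 1)
    rw [sum_range_succ'] at h3
    have h4 : sm (2 * K) (((0 : ℕ) : ℝ)) = 0 := by
      unfold sm
      split_ifs <;> simp
    rw [h4, add_zero] at h3
    refine le_trans (le_of_eq ?_) h3
    rw [← sum_range_reflect]
    refine sum_congr rfl fun i hi => ?_
    have hi' := mem_range.1 hi
    have : per g a - (per g a - 1 - i) = i + 1 := by omega
    rw [this]
  have s3 : ((per g a : ℕ) : ℝ) * (K * u * (if ((per g a : ℕ) : ℝ) < 2 * K then (1 : ℝ) else 0)) ≤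
      2 * u * K ^ 2 := by
    split_ifs with h
    · have hKu : 0 ≤ K * u := by positivity
      nlinarith
    · have : 0 ≤ 2 * u * K ^ 2 := by positivity
      simpa using this
  nlinarith

end N277Det

open N277Det in
theorem det : Det := by
  intro V _ _ _ U u K g₁ g₂ h0 hu hK
  classical
  set g : Perm V := g₁ * g₂ with hg
  have hsw : ∀ a b : V, g₁ * swap (g₂ a) (g₂ b) * g₂ = g * swap a b := by
    intro a b
    rw [hg, mul_assoc, mul_assoc]
    congr 1
    ext v
    simp only [Perm.mul_apply]
    rw [swap_apply_def, swap_apply_def]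
    by_cases h1 : v = a
    · subst h1; simp
    · by_cases h2 : v = b
      · subst h2
        rw [if_neg (fun h => h1 (g₂.injective h)), if_pos rfl, if_neg h1, if_pos rfl]
      · rw [if_neg (fun h => h1 (g₂.injective h)), if_neg (fun h => h2 (g₂.injective h)),
          if_neg h1, if_neg h2]
  have e1 : (∑ x, ∑ y, (if (K ≤ len g (g₂⁻¹ x) ∧ len g (g₂⁻¹ x) < 2 * K) ∧
          (K ≤ len g (g₂⁻¹ y) ∧ len g (g₂⁻¹ y) < 2 * K)
        then U x y else 0)) =
      ∑ a, ∑ b, (if Win K g a b then U (g₂ a) (g₂ b) else 0) := by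
    rw [← Equiv.sum_comp g₂]
    refine sum_congr rfl fun a _ => ?_
    rw [← Equiv.sum_comp g₂]
    refine sum_congr rfl fun b _ => ?_
    have q : ∀ v : V, g₂⁻¹ (g₂ v) = v := fun v => g₂.symm_apply_apply v
    rw [q, q]
    unfold Win
    congr
  have e2 : (∑ x, ∑ y, U x y / 2 * (mas (2 * K) (g₁ * swap x y * g₂) - mas (2 * K) g)) =
      ∑ a, ∑ b, U (g₂ a) (g₂ b) / 2 * (mas (2 * K) (g * swap a b) - mas (2 * K) g) := by
    rw [← Equiv.sum_comp g₂]
    refine sum_congr rfl fun a _ => ?_
    rw [← Equiv.sum_comp g₂]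
    refine sum_congr rfl fun b _ => ?_
    rw [hsw]
  rw [e2]
  have hp : ∀ a : V, _ := fun a => per_point g a (fun b => U (g₂ a) (g₂ b)) u K hK
    (fun b => h0 _ _) (fun b => hu _ _)
  have hsum := sum_le_sum fun (a : V) (_ : a ∈ (univ : Finset V)) => hp a
  rw [sum_const, card_univ, nsmul_eq_mul] at hsum
  have hN0 : (0 : ℝ) < (Fintype.card V : ℝ) := by exact_mod_cast Fintype.card_pos
  have e3 : (Fintype.card V : ℝ) * (6 * u * K ^ 2 / Fintype.card V) = 6 * u * K ^ 2 := by
    field_simp
  rw [e3] at hsum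
  simp only [sum_sub_distrib, ← mul_sum] at hsum
  have e4 : (K / Fintype.card V * (∑ x, ∑ y, (open Classical in
        if (K ≤ len g (g₂⁻¹ x) ∧ len g (g₂⁻¹ x) < 2 * K) ∧
          (K ≤ len g (g₂⁻¹ y) ∧ len g (g₂⁻¹ y) < 2 * K)
        then U x y else 0))) = K / Fintype.card V *
      ∑ a, ∑ b, (if Win K g a b then U (g₂ a) (g₂ b) else 0) := by
    rw [← e1]
  rw [e4]
  linarith

end Pool.Agent.N795.LN
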