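import Pool.Agent.N652.OM.Stm2
import Pool.Agent.N277.OM.Ball

/-!
# Project OM, part MUB: the trace and the unit ball of the matrix ultraproduct (helper277)
-/

set_option autoImplicit false

open Filter

namespace Pool.Agent.N277.OM_MUB

open Pool.Agent.Helper278

section

variable {Q : Type*} [Ring Q] [StarRing Q] [Algebra ℂ Q]

/-- the star homomorphism on bounded sequences -/
noncomputable def hom' {U : Ultrafilter ℕ} {π : (∀ n, Mat n) → Q} {τ : Q → ℂ}
    (h : IsMatrixUltraproduct U π τ) : BddSeq →⋆ₐ[ℂ] Q where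
  toFun x := π x.1
  map_one' := h.one
  map_mul' x y := h.mul x.1 y.1 x.2 y.2
  map_zero' := by
    have h1 := h.smul 0 (fun n => (0 : BddSeq).1 n) (0 : BddSeq).2
    rw [zero_smul] at h1
    rw [← h1]
    congr 1
    funext n
    rw [zero_smul]
    rfl
  map_add' x y := h.add x.1 y.1 x.2 y.2
  commutes' r := by
    have h1 := h.smul r (fun n => (1 : BddSeq).1 n) (1 : BddSeq).2
    have h2 : π (fun n => (1 : BddSeq).1 n) = 1 := h.one
    rw [h2] at h1
    have h3 : (algebraMap ℂ Q) r = r • 1 := Algebra.algebraMap_eq_smul_one r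
    rw [h3, ← h1]
    congr 1
    funext n
    show (algebraMap ℂ (∀ n, Mat n) r) n = r • (1 : Mat n)
    rw [Pi.algebraMap_apply, Algebra.algebraMap_eq_smul_one]
  map_star' x := h.star x.1 x.2

theorem isMatUltra' {U : Ultrafilter ℕ} {π : (∀ n, Mat n) → Q} {τ : Q → ℂ}
    (h : IsMatrixUltraproduct U π τ) : IsMatUltra U (hom' h) τ where
  surj q := by
    obtain ⟨x, hx, rfl⟩ := h.surj q
    exact ⟨⟨x, hx⟩, rfl⟩
  ker x := h.ker x.1 x.2
  trace x := h.trace x.1 x.2

end

theorem le_atTop' {U : Ultrafilter ℕ} (hU : ∀ n, {n} ∉ U) : (U : Filter ℕ) ≤ atTop := by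
  rcases Ultrafilter.le_cofinite_or_eq_pure U with h1 | ⟨n, hn⟩
  · rwa [Nat.cofinite_eq_atTop] at h1
  · exfalso
    apply hU n
    rw [hn]
    exact Ultrafilter.mem_pure.2 rfl

theorem main : Pool.Agent.N652.OM.S_MUB := by
  intro U hU Q _ _ _ _ π φ hπ
  have h := isMatUltra' hπ
  have hUt := le_atTop' hU
  exact ⟨OM.lin h, OM.ballM (hom' hπ), fun _ => rfl,
    OM.trAlg' h (hUt (eventually_gt_atTop 0)), OM.ball_mat hU h⟩

end Pool.Agent.N277.OM_MUB
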